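import Mathlib

set_option autoImplicit false

open Polynomial Finset

namespace Pool.Agent.H865R2.SK

/-- `2 v_q(k!) ≤ k` for `q ≥ 3`. -/
theorem two_val_factorial_le {q : ℕ} (hq : q.Prime) (h3 : 3 ≤ q) (k : ℕ) :
    2 * padicValNat q (k.factorial) ≤ k := by
  have : Fact q.Prime := ⟨hq⟩
  have h := sub_one_mul_padicValNat_factorial (p := q) k
  have h2 : (q - 1) * padicValNat q k.factorial ≤ k := by rw [h]; exact Nat.sub_le _ _
  have h3' : 2 ≤ q - 1 := by omega
  calc 2 * padicValNat q (k.factorial) ≤ (q - 1) * padicValNat q k.factorial :=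
        Nat.mul_le_mul_right _ h3'
    _ ≤ k := h2

/-- Strassmann type bound, elementary form: if a function `f(n) = ∑ C(n,k) q^k b_k` vanishes at
`K` points then `q^((K+1)/2)` divides all its values. -/
theorem newton_zero {q : ℕ} (hq : q.Prime) (h3 : 3 ≤ q) (f b : ℕ → ℤ)
    (hf : ∀ n, f n = ∑ k ∈ range (n + 1), (n.choose k : ℤ) * ((q : ℤ) ^ k * b k))
    (Z : Finset ℕ) (hZ : ∀ n ∈ Z, f n = 0) (n₀ : ℕ) :
    (q : ℤ) ^ ((Z.card + 1) / 2) ∣ f n₀ := by
  classical
  have : Fact q.Prime := ⟨hq⟩
  rcases Nat.eq_zero_or_pos Z.card with hK | hK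
  · simp [hK]
  set K := Z.card with hKdef
  set M : ℕ := max n₀ (Z.sup id) with hM
  have hn₀ : n₀ ≤ M := le_max_left _ _
  have hZM : ∀ n ∈ Z, n ≤ M := fun n hn => le_trans (Finset.le_sup (f := id) hn) (le_max_right _ _)
  -- the `q`-free part
  set D : ℕ := ∏ k ∈ range (M + 1), (k.factorial / q ^ padicValNat q k.factorial) with hD
  have hfac : ∀ k : ℕ, q ^ padicValNat q k.factorial * (k.factorial / q ^ padicValNat q k.factorial)
      = k.factorial := fun k => Nat.mul_div_cancel' pow_padicValNat_dvd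
  have hcop1 : ∀ k : ℕ, Nat.Coprime q (k.factorial / q ^ padicValNat q k.factorial) := by
    intro k
    rw [Nat.Prime.coprime_iff_not_dvd hq]
    intro h
    obtain ⟨t, ht⟩ := h
    have h1 := hfac k
    rw [ht] at h1
    have h2 : q ^ (padicValNat q k.factorial + 1) ∣ k.factorial :=
      ⟨t, by rw [pow_succ, mul_assoc]; exact h1.symm⟩
    exact pow_succ_padicValNat_not_dvd (Nat.factorial_ne_zero k) h2
  have hcopD : Nat.Coprime q D := by
    rw [hD]
    exact Nat.Coprime.prod_right fun k _ => hcop1 k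
  -- coefficients
  have hA : ∀ k ∈ range (M + 1), ∃ A : ℤ, A * (k.factorial : ℤ) = (q : ℤ) ^ k * D ∧
      (q : ℤ) ^ ((k + 1) / 2) ∣ A := by
    intro k hk
    have hkD : (k.factorial / q ^ padicValNat q k.factorial) ∣ D :=
      Finset.dvd_prod_of_mem _ hk
    obtain ⟨E, hE⟩ := hkD
    have hv := two_val_factorial_le hq h3 k
    set v := padicValNat q k.factorial with hv'
    refine ⟨(q : ℤ) ^ (k - v) * E, ?_, ?_⟩
    · have h1 : ((q : ℤ) ^ v * ((k.factorial / q ^ v : ℕ) : ℤ)) = (k.factorial : ℤ) := by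
        exact_mod_cast hfac k
      rw [← h1, hE]
      push_cast
      have h2 : (q : ℤ) ^ k = (q : ℤ) ^ (k - v) * (q : ℤ) ^ v := by
        rw [← pow_add]; congr 1; omega
      rw [h2]; ring
    · apply dvd_mul_of_dvd_left
      apply pow_dvd_pow
      omega
  choose! A hA1 hA2 using hA
  set F : ℤ[X] := ∑ k ∈ range (M + 1), C (A k * b k) * descPochhammer ℤ k with hF
  have hFeval : ∀ n ≤ M, F.eval (n : ℤ) = D * f n := by
    intro n hn
    rw [hF, eval_finsetSum, hf n, Finset.mul_sum]
    have hsub : range (n + 1) ⊆ range (M + 1) := by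
      intro k hk; rw [Finset.mem_range] at *; omega
    rw [← Finset.sum_subset hsub]
    · apply Finset.sum_congr rfl
      intro k hk
      rw [eval_mul, eval_C, descPochhammer_eval_eq_descFactorial, Nat.descFactorial_eq_factorial_mul_choose]
      push_cast
      have := hA1 k (hsub hk)
      linear_combination (b k * (n.choose k : ℤ)) * this
    · intro k hk hk'
      rw [Finset.mem_range] at hk hk'
      have : n < k := by omega
      rw [eval_mul, descPochhammer_eval_eq_descFactorial, Nat.descFactorial_of_lt this]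
      simp
  set Q : ℕ := q ^ ((K + 1) / 2) with hQ
  have hQ1 : 1 < Q := by
    rw [hQ]
    apply Nat.one_lt_pow _ (by omega)
    omega
  have : Fact (1 < Q) := ⟨hQ1⟩
  have : Nontrivial (ZMod Q) := ZMod.nontrivial Q
  set φ : ℤ →+* ZMod Q := Int.castRingHom (ZMod Q) with hφ
  -- the monic polynomial of the zeros
  set H : ℤ[X] := ∏ a ∈ Z, (X - C (a : ℤ)) with hH
  have hHm : H.Monic := monic_prod_of_monic _ _ fun a _ => monic_X_sub_C _
  have hHF : H ∣ F := by
    rcases eq_or_ne F 0 with h0 | h0
    · rw [h0]; exact dvd_zero _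
    have hle : (Z.val.map (fun a : ℕ => (a : ℤ))) ≤ F.roots := by
      rw [Multiset.le_iff_subset]
      · intro x hx
        rw [Multiset.mem_map] at hx
        obtain ⟨a, ha, rfl⟩ := hx
        rw [mem_roots h0, IsRoot.def, hFeval a (hZM a ha), hZ a ha, mul_zero]
      · exact Z.nodup.map (fun a b h => by exact_mod_cast h)
    have := (Multiset.prod_X_sub_C_dvd_iff_le_roots h0 (Z.val.map (fun a : ℕ => (a : ℤ)))).2 hle
    rw [Multiset.map_map] at this
    exact this
  have hdeg : (F.map φ).degree < (H.map φ).degree := by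
    have h1 : (H.map φ).degree = K := by
      rw [hHm.degree_map φ, hH, degree_prod]
      have h2 : ∀ i ∈ Z, (X - C (i : ℤ)).degree = 1 := fun i _ => degree_X_sub_C (i : ℤ)
      rw [Finset.sum_congr rfl h2]
      simp [hKdef]
    rw [h1]
    rw [← mem_degreeLT, hF, Polynomial.map_sum]
    apply Submodule.sum_mem
    intro k hk
    rw [mem_degreeLT, Polynomial.map_mul, map_C]
    by_cases hkK : k < K
    · calc (C (φ (A k * b k)) * (descPochhammer ℤ k).map φ).degree
          ≤ ((descPochhammer ℤ k).map φ).degree := by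
            refine le_trans (degree_mul_le _ _) ?_
            calc (C (φ (A k * b k))).degree + ((descPochhammer ℤ k).map φ).degree
                ≤ 0 + ((descPochhammer ℤ k).map φ).degree := by gcongr; exact degree_C_le
              _ = _ := zero_add _
        _ ≤ (descPochhammer ℤ k).degree := degree_map_le
        _ ≤ (k : WithBot ℕ) := by
            refine le_trans degree_le_natDegree ?_
            rw [descPochhammer_natDegree]
        _ < (K : WithBot ℕ) := by exact_mod_cast hkK
    · have hz : φ (A k * b k) = 0 := by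
        have h2 : (Q : ℤ) ∣ A k * b k := by
          apply dvd_mul_of_dvd_left
          refine dvd_trans ?_ (hA2 k hk)
          rw [hQ]; push_cast
          apply pow_dvd_pow
          omega
        rw [hφ, eq_intCast]
        exact (ZMod.intCast_zmod_eq_zero_iff_dvd _ _).2 h2
      rw [hz]
      simp
  have hF0 : F.map φ = 0 := by
    by_contra hne
    exact (hHm.map φ).not_dvd_of_degree_lt hne hdeg (Polynomial.map_dvd φ hHF)
  have hfin : (Q : ℤ) ∣ D * f n₀ := by
    rw [← hFeval n₀ hn₀]
    rw [← ZMod.intCast_zmod_eq_zero_iff_dvd]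
    have h1 : (F.map φ).eval (φ (n₀ : ℤ)) = φ (F.eval (n₀ : ℤ)) := by
      rw [eval_map, eval₂_at_apply]
    rw [hF0] at h1
    simp only [eval_zero] at h1
    rw [← eq_intCast φ, ← h1]
  have hcop : IsCoprime (Q : ℤ) (D : ℤ) := by
    rw [Nat.isCoprime_iff_coprime]
    exact Nat.Coprime.pow_left _ hcopD
  have := hcop.dvd_of_dvd_mul_left hfin
  simpa [hQ] using this

end Pool.Agent.H865R2.SK
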