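import Mathlib
import Pool.Agent.H865R2.SK.Zero

set_option autoImplicit false

open Finset

namespace Pool.Agent.H865R2.SK

/-- `u` satisfies `u(n+d) = ∑ c_i u(n+d-1-i)`. -/
def IsRec (d : ℕ) (c : ℕ → ℤ) (u : ℕ → ℤ) : Prop :=
  ∀ n, u (n + d) = ∑ i ∈ range d, c i * u (n + d - 1 - i)

section period

variable {d : ℕ} {c : ℕ → ℤ} {q : ℕ}

/-- the shift of the state vector modulo `q` -/
def sh (d : ℕ) (c : ℕ → ℤ) (q : ℕ) (s : Fin d → ZMod q) : Fin d → ZMod q := fun i =>
  if h : i.1 + 1 < d then s ⟨i.1 + 1, h⟩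
  else ∑ j : Fin d, (c j.1 : ZMod q) * s ⟨d - 1 - j.1, by have := j.2; omega⟩

theorem sh_inj (hd : 1 ≤ d) (hq : q.Prime) (hc : ¬ (q : ℤ) ∣ c (d - 1)) :
    Function.Injective (sh d c q) := by
  have : Fact q.Prime := ⟨hq⟩
  intro s t hst
  have h1 : ∀ i : Fin d, 1 ≤ i.1 → s i = t i := by
    intro i hi
    have hlt : i.1 - 1 + 1 < d := by have := i.2; omega
    have := congrFun hst ⟨i.1 - 1, by omega⟩
    simp only [sh, hlt, dif_pos] at this
    have hi' : (⟨i.1 - 1 + 1, hlt⟩ : Fin d) = i := Fin.ext (by simp only; omega)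
    rw [hi'] at this
    exact this
  have h0 : s ⟨0, hd⟩ = t ⟨0, hd⟩ := by
    have := congrFun hst ⟨d - 1, by omega⟩
    have hn : ¬ (d - 1 + 1 < d) := by omega
    simp only [sh, hn, dif_neg, not_false_iff] at this
    set j₀ : Fin d := ⟨d - 1, by omega⟩ with hj₀
    rw [← Finset.add_sum_erase _ _ (Finset.mem_univ j₀),
      ← Finset.add_sum_erase (Finset.univ : Finset (Fin d)) _ (Finset.mem_univ j₀)] at this
    have hrest : ∑ x ∈ univ.erase j₀, (c x.1 : ZMod q) * s ⟨d - 1 - x.1, by have := x.2; omega⟩ =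
        ∑ x ∈ univ.erase j₀, (c x.1 : ZMod q) * t ⟨d - 1 - x.1, by have := x.2; omega⟩ := by
      apply Finset.sum_congr rfl
      intro x hx
      rw [h1]
      have hx' : x ≠ j₀ := (Finset.mem_erase.1 hx).1
      have : x.1 ≠ d - 1 := fun h => hx' (Fin.ext h)
      have := x.2
      simp only
      omega
    rw [hrest] at this
    have h2 := add_right_cancel this
    have hz : (⟨d - 1 - j₀.1, by omega⟩ : Fin d) = ⟨0, hd⟩ := Fin.ext (by simp [hj₀])
    rw [hz] at h2
    refine mul_left_cancel₀ ?_ h2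
    intro h
    exact hc ((ZMod.intCast_zmod_eq_zero_iff_dvd _ _).1 h)
  funext i
  rcases Nat.eq_zero_or_pos i.1 with hi | hi
  · have : i = ⟨0, hd⟩ := Fin.ext hi
    rw [this]; exact h0
  · exact h1 i hi

theorem sh_iter {u : ℕ → ℤ} (hu : IsRec d c u) (k n : ℕ) :
    (sh d c q)^[k] (fun i => (u (n + i.1) : ZMod q)) = fun i => (u (n + k + i.1) : ZMod q) := by
  induction k with
  | zero => rfl
  | succ k ih =>
    rw [Function.iterate_succ_apply', ih]
    funext i
    simp only [sh]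
    split_ifs with h
    · congr 2; omega
    · have hi : i.1 = d - 1 := by have := i.2; omega
      have hd : 1 ≤ d := by have := i.2; omega
      have e1 : n + (k + 1) + i.1 = (n + k) + d := by omega
      rw [e1, hu (n + k)]
      push_cast
      rw [Finset.sum_range]
      apply Finset.sum_congr rfl
      intro j _
      congr 3
      have := j.2
      omega

theorem period (hd : 1 ≤ d) (hq : q.Prime) (hc : ¬ (q : ℤ) ∣ c (d - 1)) {u : ℕ → ℤ}
    (hu : IsRec d c u) {m : ℕ} (hm : (q ^ d).factorial ∣ m) (n : ℕ) :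
    (q : ℤ) ∣ u (n + m) - u n := by
  classical
  have : Fact q.Prime := ⟨hq⟩
  have hinj := sh_inj (c := c) hd hq hc
  let e : Equiv.Perm (Fin d → ZMod q) :=
    Equiv.ofBijective _ (Finite.injective_iff_bijective.1 hinj)
  have hcard : Fintype.card (Equiv.Perm (Fin d → ZMod q)) = (q ^ d).factorial := by
    rw [Fintype.card_perm]
    simp [ZMod.card]
  have he : e ^ m = 1 := by
    obtain ⟨t, rfl⟩ := hm
    rw [pow_mul, ← hcard, pow_card_eq_one, one_pow]
  have h1 : (sh d c q)^[m] (fun i => (u (n + i.1) : ZMod q)) = fun i => (u (n + i.1) : ZMod q) := by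
    have h2 : ∀ (k : ℕ) (s : Fin d → ZMod q), (e ^ k) s = (sh d c q)^[k] s := by
      intro k
      induction k with
      | zero => intro s; rfl
      | succ k ih =>
        intro s
        rw [pow_succ', Equiv.Perm.mul_apply, ih, Function.iterate_succ_apply']
        rfl
    rw [← h2, he]; rfl
  rw [sh_iter hu] at h1
  have h3 := congrFun h1 ⟨0, hd⟩
  simp only [add_zero] at h3
  rw [← ZMod.intCast_zmod_eq_zero_iff_dvd]
  push_cast
  rw [h3, sub_self]

theorem iter_diff (hd : 1 ≤ d) (hq : q.Prime) (hc : ¬ (q : ℤ) ∣ c (d - 1))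
    {m : ℕ} (hm : (q ^ d).factorial ∣ m) (k : ℕ) {u : ℕ → ℤ} (hu : IsRec d c u) :
    ∃ w : ℕ → ℤ, IsRec d c w ∧ ∀ n, (fwdDiff m)^[k] u n = (q : ℤ) ^ k * w n := by
  have hq0 : (q : ℤ) ≠ 0 := by exact_mod_cast hq.ne_zero
  induction k with
  | zero => exact ⟨u, hu, fun n => by simp⟩
  | succ k ih =>
    obtain ⟨w, hw, hwk⟩ := ih
    have hdiv := fun n => period hd hq hc hw hm n
    choose w' hw' using hdiv
    refine ⟨w', ?_, ?_⟩
    · intro n
      apply mul_left_cancel₀ hq0
      rw [← hw', Finset.mul_sum]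
      have e1 : n + d + m = (n + m) + d := by omega
      rw [e1, hw (n + m), hw n, ← Finset.sum_sub_distrib]
      apply Finset.sum_congr rfl
      intro i hi
      rw [Finset.mem_range] at hi
      have e2 : n + m + d - 1 - i = (n + d - 1 - i) + m := by omega
      rw [e2]
      have := hw' (n + d - 1 - i)
      linear_combination (c i) * this
    · intro n
      rw [Function.iterate_succ_apply', fwdDiff, hwk, hwk, ← mul_sub, hw' n, pow_succ]
      ring

/-- The number of zeros in a residue class is bounded through the divisibility of the other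
values. -/
theorem class_dvd (hd : 1 ≤ d) (hq : q.Prime) (h3 : 3 ≤ q) (hc : ¬ (q : ℤ) ∣ c (d - 1))
    {m : ℕ} (hm : (q ^ d).factorial ∣ m) {u : ℕ → ℤ} (hu : IsRec d c u) (r : ℕ)
    (Z : Finset ℕ) (hZ : ∀ j ∈ Z, u (r + j * m) = 0) (j₀ : ℕ) :
    (q : ℤ) ^ ((Z.card + 1) / 2) ∣ u (r + j₀ * m) := by
  have h := fun k => iter_diff hd hq hc hm k hu
  choose w hw1 hw2 using h
  refine newton_zero hq h3 (fun j => u (r + j * m)) (fun k => w k r) ?_ Z hZ j₀
  intro n
  have := shift_eq_sum_fwdDiff_iter m u n r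
  rw [smul_eq_mul] at this
  rw [this]
  apply Finset.sum_congr rfl
  intro k _
  rw [hw2, nsmul_eq_mul]

end period

end Pool.Agent.H865R2.SK
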