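import Mathlib
import Pool.Agent.H865R2.SK.Rec

set_option autoImplicit false

open Finset

namespace Pool.Agent.H865R2.SK

section full

variable {d : ℕ} {c : ℕ → ℤ}

/-- the shift of the state vector as a linear map -/
def shL (d : ℕ) (c : ℕ → ℤ) : (Fin d → ℤ) →ₗ[ℤ] (Fin d → ℤ) :=
  LinearMap.pi fun i =>
    if h : i.1 + 1 < d then LinearMap.proj ⟨i.1 + 1, h⟩
    else ∑ j : Fin d, c j.1 • LinearMap.proj ⟨d - 1 - j.1, by have := j.2; omega⟩

theorem shL_pow {u : ℕ → ℤ} (hu : IsRec d c u) (k n : ℕ) :
    (shL d c ^ k) (fun i : Fin d => u (n + i.1)) = fun i => u (n + k + i.1) := by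
  induction k with
  | zero => rfl
  | succ k ih =>
    rw [pow_succ', Module.End.mul_apply, ih]
    funext i
    simp only [shL, LinearMap.pi_apply]
    split_ifs with h
    · simp only [LinearMap.proj_apply]
      congr 1; omega
    · have hi : i.1 = d - 1 := by have := i.2; omega
      have hd : 1 ≤ d := by have := i.2; omega
      have e1 : n + (k + 1) + i.1 = (n + k) + d := by omega
      rw [e1, hu (n + k), LinearMap.sum_apply, Finset.sum_range]
      apply Finset.sum_congr rfl
      intro j _
      simp only [LinearMap.smul_apply, LinearMap.proj_apply, smul_eq_mul]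
      congr 2
      have := j.2
      omega

/-- If a progression of length `d` consists of zeros of a recurrence of order `d`, then the whole
infinite progression does. -/
theorem full_zero (hd : 1 ≤ d) {u : ℕ → ℤ} (hu : IsRec d c u) (r m : ℕ)
    (h0 : ∀ j < d, u (r + j * m) = 0) (j : ℕ) : u (r + j * m) = 0 := by
  set B : (Fin d → ℤ) →ₗ[ℤ] (Fin d → ℤ) := shL d c ^ m with hB
  have hmon := B.charpoly_monic
  have hdeg : B.charpoly.natDegree = d := by
    rw [LinearMap.charpoly_natDegree]
    simp
  have hCH := B.aeval_self_charpoly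
  rw [Polynomial.aeval_eq_sum_range, hdeg] at hCH
  have hkey : ∀ j, ∑ i ∈ range (d + 1), B.charpoly.coeff i * u (r + (j + i) * m) = 0 := by
    intro j
    have h1 := congrFun (LinearMap.congr_fun hCH (fun i : Fin d => u (r + j * m + i.1))) ⟨0, hd⟩
    rw [LinearMap.sum_apply, Finset.sum_apply] at h1
    rw [LinearMap.zero_apply, Pi.zero_apply] at h1
    rw [← h1]
    apply Finset.sum_congr rfl
    intro i _
    rw [LinearMap.smul_apply, Pi.smul_apply, smul_eq_mul, hB, ← pow_mul, shL_pow hu]
    congr 2
    ring
  induction j using Nat.strong_induction_on with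
  | _ j ih =>
    rcases Nat.lt_or_ge j d with hj | hj
    · exact h0 j hj
    · have h2 := hkey (j - d)
      rw [Finset.sum_range_succ] at h2
      have h3 : ∑ i ∈ range d, B.charpoly.coeff i * u (r + (j - d + i) * m) = 0 := by
        apply Finset.sum_eq_zero
        intro i hi
        rw [Finset.mem_range] at hi
        rw [ih (j - d + i) (by omega), mul_zero]
      have h4 : B.charpoly.coeff d = 1 := by
        have := hmon.coeff_natDegree
        rwa [hdeg] at this
      rw [h3, h4, zero_add, one_mul] at h2
      have h5 : j - d + d = j := by omega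
      rwa [h5] at h2

end full

end Pool.Agent.H865R2.SK
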