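import Mathlib
import Pool.Agent.H865R2.SK.Full

set_option autoImplicit false

open Finset

namespace Pool.Agent.H865R2.SK

/-- the first `m` terms of the class of `r` modulo `m` vanish -/
def FullC (u : ℕ → ℤ) (m r : ℕ) : Prop := ∀ j < m, u (r + j * m) = 0

/-- isolated zero -/
def Iso (u : ℕ → ℤ) (m n : ℕ) : Prop := u n = 0 ∧ ¬ FullC u m (n % m)

/-- the modulus attached to a recurrence of order `d` with last coefficient `c` -/
def modl (d : ℕ) (a : ℕ) : ℕ := ((2 * a + 1) ^ d).factorial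

theorem le_modl (d a : ℕ) (ha : 1 ≤ a) : d ≤ modl d a := by
  unfold modl
  have h1 : d < (2 * a + 1) ^ d := Nat.lt_pow_self (by omega)
  exact le_trans h1.le (Nat.self_le_factorial _)

theorem modl_pos (d a : ℕ) : 0 < modl d a := Nat.factorial_pos _

theorem exists_q (a : ℕ) (ha : 1 ≤ a) : ∃ q : ℕ, q.Prime ∧ 3 ≤ q ∧ q ∣ 2 * a + 1 ∧ ¬ q ∣ a := by
  refine ⟨(2 * a + 1).minFac, Nat.minFac_prime (by omega), ?_, Nat.minFac_dvd _, ?_⟩
  · have hp := Nat.minFac_prime (n := 2 * a + 1) (by omega)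
    have h2 : (2 * a + 1).minFac ≠ 2 := by
      intro h
      have := Nat.minFac_dvd (2 * a + 1)
      rw [h] at this
      omega
    have := hp.two_le
    omega
  · intro h
    have hp := Nat.minFac_prime (n := 2 * a + 1) (by omega)
    have h1 := Nat.minFac_dvd (2 * a + 1)
    have h2 : (2 * a + 1).minFac ∣ 1 := by
      have := (Nat.dvd_add_right (Dvd.dvd.mul_left h 2)).1 h1
      exact this
    exact hp.one_lt.ne' (Nat.dvd_one.1 h2)

theorem count_iso {d : ℕ} {c : ℕ → ℤ} (hd : 1 ≤ d) (hc : c (d - 1) ≠ 0) {u : ℕ → ℤ}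
    (hu : IsRec d c u) (W : Finset ℕ)
    (hW : ∀ n ∈ W, Iso u (modl d (c (d - 1)).natAbs) n) :
    W.card ≤ 2 * (∑ k ∈ range (modl d (c (d - 1)).natAbs * modl d (c (d - 1)).natAbs),
      (u k).natAbs) * modl d (c (d - 1)).natAbs := by
  classical
  set a := (c (d - 1)).natAbs with ha
  have ha1 : 1 ≤ a := Int.natAbs_pos.2 hc
  set m := modl d a with hm
  have hm0 : 0 < m := modl_pos d a
  obtain ⟨q, hq, h3, hqP, hqa⟩ := exists_q a ha1
  have hqc : ¬ (q : ℤ) ∣ c (d - 1) := by
    rw [← Int.natCast_dvd_natCast, ] at hqa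
    intro h
    exact hqa (by rw [ha]; exact Int.dvd_natAbs.2 h)
  have hqm : (q ^ d).factorial ∣ m := by
    rw [hm, modl]
    apply Nat.factorial_dvd_factorial
    exact Nat.pow_le_pow_left (Nat.le_of_dvd (by omega) hqP) d
  have hmaps : ∀ n ∈ W, n % m ∈ range m := fun n _ => Finset.mem_range.2 (Nat.mod_lt _ hm0)
  have key := Finset.card_le_mul_card_image_of_maps_to (f := fun n => n % m) hmaps
    (2 * ∑ k ∈ range (m * m), (u k).natAbs) ?_
  · rw [Finset.card_range] at key
    exact key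
  intro r hr
  rw [Finset.mem_range] at hr
  rcases Finset.eq_empty_or_nonempty (W.filter fun n => n % m = r) with he | hne
  · rw [he]; simp
  obtain ⟨n₁, hn₁⟩ := hne
  rw [Finset.mem_filter] at hn₁
  have hnf := (hW n₁ hn₁.1).2
  rw [hn₁.2] at hnf
  unfold FullC at hnf
  push Not at hnf
  obtain ⟨j₀, hj₀, hj₀'⟩ := hnf
  set Z : Finset ℕ := (W.filter fun n => n % m = r).image (fun n => n / m) with hZ
  have hcard : Z.card = (W.filter fun n => n % m = r).card := by
    rw [hZ]
    apply Finset.card_image_of_injOn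
    intro x hx y hy hxy
    have hx' := (Finset.mem_filter.1 (Finset.mem_coe.1 hx)).2
    have hy' := (Finset.mem_filter.1 (Finset.mem_coe.1 hy)).2
    simp only at hxy
    rw [← Nat.div_add_mod x m, ← Nat.div_add_mod y m, hxy, hx', hy']
  have hZ0 : ∀ j ∈ Z, u (r + j * m) = 0 := by
    intro j hj
    rw [hZ, Finset.mem_image] at hj
    obtain ⟨n, hn, rfl⟩ := hj
    rw [Finset.mem_filter] at hn
    have h1 := (hW n hn.1).1
    have h2 : r + n / m * m = n := by
      rw [← hn.2, mul_comm]; exact Nat.mod_add_div n m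
    rw [h2]; exact h1
  have hdvd := class_dvd hd hq h3 hqc hqm hu r Z hZ0 j₀
  rw [← hcard]
  have h5 : q ^ ((Z.card + 1) / 2) ≤ (u (r + j₀ * m)).natAbs := by
    apply Nat.le_of_dvd (Int.natAbs_pos.2 hj₀')
    rw [← Int.natCast_dvd]
    exact_mod_cast hdvd
  have h6 : (Z.card + 1) / 2 < q ^ ((Z.card + 1) / 2) := Nat.lt_pow_self (by omega)
  have h7 : (u (r + j₀ * m)).natAbs ≤ ∑ k ∈ range (m * m), (u k).natAbs := by
    apply Finset.single_le_sum (f := fun k => (u k).natAbs) (fun i _ => Nat.zero_le _)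
    rw [Finset.mem_range]
    calc r + j₀ * m < m + j₀ * m := by omega
      _ = (j₀ + 1) * m := by ring
      _ ≤ m * m := Nat.mul_le_mul_right _ (by omega)
  omega

end Pool.Agent.H865R2.SK
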