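import Mathlib

set_option autoImplicit false

open Finset

namespace Pool.Agent.H865R2.SK

section cp

variable {α β : Type*} [Primcodable α] [Primcodable β]

theorem cp_comp {p : β → Prop} (hp : ComputablePred p) {f : α → β} (hf : Computable f) :
    ComputablePred fun a => p (f a) := by
  classical
  exact (hp.decide.comp hf).computablePred

theorem cp_and {p q : α → Prop} (hp : ComputablePred p) (hq : ComputablePred q) :
    ComputablePred fun a => p a ∧ q a := by
  classical
  refine Computable.computablePred ?_
  exact ((Primrec.and.to_comp).comp hp.decide hq.decide).of_eq fun a => by simp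

theorem cp_or {p q : α → Prop} (hp : ComputablePred p) (hq : ComputablePred q) :
    ComputablePred fun a => p a ∨ q a := by
  classical
  refine Computable.computablePred ?_
  exact ((Primrec.or.to_comp).comp hp.decide hq.decide).of_eq fun a => by simp

theorem cp_le {f g : α → ℕ} (hf : Computable f) (hg : Computable g) :
    ComputablePred fun a => f a ≤ g a := by
  have h : ComputablePred fun x : ℕ × ℕ => x.1 ≤ x.2 := by
    have := Primrec.nat_le
    exact PrimrecPred.computablePred this
  exact cp_comp h (hf.pair hg)

theorem cp_lt {f g : α → ℕ} (hf : Computable f) (hg : Computable g) :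
    ComputablePred fun a => f a < g a := by
  have h : ComputablePred fun x : ℕ × ℕ => x.1 < x.2 := by
    have := Primrec.nat_lt
    exact PrimrecPred.computablePred this
  exact cp_comp h (hf.pair hg)

theorem cp_bex {R : α × ℕ → Prop} (hR : ComputablePred R) :
    ComputablePred fun x : α × ℕ => ∃ i < x.2, R (x.1, i) := by
  classical
  let P : α × ℕ → ℕ → Prop := fun x i => R (x.1, i) ∨ x.2 ≤ i
  have hP : ComputablePred fun y : (α × ℕ) × ℕ => P y.1 y.2 := by
    apply cp_or
    · exact cp_comp hR ((Computable.fst.comp Computable.fst).pair Computable.snd)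
    · exact cp_le (Computable.snd.comp Computable.fst) Computable.snd
  have hex : ∀ x, ∃ n, P x n := fun x => ⟨x.2, Or.inr le_rfl⟩
  have hfind := Computable.find hP hex
  refine (cp_lt hfind Computable.snd).of_eq ?_
  intro x
  constructor
  · intro h
    have h1 := Nat.find_spec (hex x)
    rcases h1 with h1 | h1
    · exact ⟨_, h, h1⟩
    · omega
  · rintro ⟨i, hi, hR'⟩
    exact lt_of_le_of_lt (Nat.find_min' (hex x) (Or.inl hR')) hi

theorem cp_ball {R : α × ℕ → Prop} (hR : ComputablePred R) :
    ComputablePred fun x : α × ℕ => ∀ i < x.2, R (x.1, i) := by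
  have h1 : ComputablePred fun x : α × ℕ => ¬ R x := hR.not
  have := (cp_bex h1).not
  refine this.of_eq ?_
  intro x
  push Not
  rfl

end cp

/-- Computability of partial sums. -/
theorem comp_sum {α : Type*} [Primcodable α] {f : α → ℕ → ℕ} (hf : Computable₂ f) {n : α → ℕ}
    (hn : Computable n) :
    Computable fun a => ∑ k ∈ range (n a), f a k := by
  have h : Computable fun a => (Nat.rec 0 (fun k acc => acc + f a k) (n a) : ℕ) := by
    refine Computable.nat_rec (h := fun a (x : ℕ × ℕ) => x.2 + f a x.1) hn
      (Computable.const 0) ?_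
    exact (Primrec.nat_add.to_comp).comp (Computable.snd.comp Computable.snd)
      (hf.comp Computable.fst (Computable.fst.comp Computable.snd))
  refine h.of_eq ?_
  intro a
  induction n a with
  | zero => rfl
  | succ k ih => rw [Finset.sum_range_succ, ← ih]

section diag

variable {α : Type*} [Primcodable α]

/-- value of `b` on a code -/
def bcode (b : α → ℕ) (i : ℕ) : ℕ := ((Encodable.decode i : Option α).map b).getD 0

theorem bcode_comp {b : α → ℕ} (hb : Computable b) : Computable (bcode b) := by
  unfold bcode
  exact Computable.option_getD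
    (Computable.option_map Computable.decode (hb.comp Computable.snd).to₂) (Computable.const 0)

def isoCode (iso : α → ℕ → Prop) (x : ℕ × ℕ) : Prop :=
  ∃ a : α, (Encodable.decode x.1 : Option α) = some a ∧ iso a x.2

theorem isoCode_comp {iso : α → ℕ → Prop} (h : ComputablePred fun x : α × ℕ => iso x.1 x.2) :
    ComputablePred (isoCode iso) := by
  classical
  refine Computable.computablePred ?_
  have h1 : Computable fun x : ℕ × ℕ =>
      (Option.casesOn (Encodable.decode x.1 : Option α) false
        (fun a => decide (iso a x.2)) : Bool) := by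
    refine Computable.option_casesOn (Computable.decode.comp Computable.fst)
      (Computable.const false) ?_
    exact (h.decide.comp (Computable.snd.pair (Computable.snd.comp Computable.fst))).to₂
  refine h1.of_eq ?_
  intro x
  unfold isoCode
  cases h2 : (Encodable.decode x.1 : Option α) with
  | none => simp
  | some a => simp

/-- The diagonal exceptional set. -/
def exc (b : α → ℕ) (iso : α → ℕ → Prop) (g : ℕ → ℕ) : Set ℕ :=
  {n | ∃ i < n + 1, (∑ k ∈ range (i + 1), bcode b k) ≤ g n ∧ isoCode iso (i, n)}

theorem exc_comp {b : α → ℕ} (hb : Computable b) {iso : α → ℕ → Prop}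
    (h : ComputablePred fun x : α × ℕ => iso x.1 x.2) {g : ℕ → ℕ} (hg : Computable g) :
    ComputablePred fun n => n ∈ exc b iso g := by
  have hS : Computable fun i : ℕ => ∑ k ∈ range (i + 1), bcode b k :=
    comp_sum ((bcode_comp hb).comp Computable.snd).to₂ Computable.succ
  have hR : ComputablePred fun x : ℕ × ℕ =>
      (∑ k ∈ range (x.2 + 1), bcode b k) ≤ g x.1 ∧ isoCode iso (x.2, x.1) := by
    apply cp_and
    · exact cp_le (hS.comp Computable.snd) (hg.comp Computable.fst)
    · exact cp_comp (isoCode_comp h) (Computable.snd.pair Computable.fst)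
  exact cp_comp (cp_bex hR) (Computable.id.pair Computable.succ)

theorem exc_count {b : α → ℕ} {iso : α → ℕ → Prop}
    (hcount : ∀ a (W : Finset ℕ), (∀ n ∈ W, iso a n) → W.card ≤ b a) {g : ℕ → ℕ}
    (hmono : Monotone g) (x : ℕ) :
    (exc b iso g ∩ Set.Iic x).ncard ≤ g x := by
  classical
  have hfin : (exc b iso g ∩ Set.Iic x).Finite := (Set.finite_Iic x).inter_of_right _
  set W := hfin.toFinset with hW
  have hncard : (exc b iso g ∩ Set.Iic x).ncard = W.card := Set.ncard_eq_toFinset_card _ hfin
  rw [hncard]
  have hmem : ∀ n ∈ W, n ≤ x ∧ ∃ i < n + 1, (∑ k ∈ range (i + 1), bcode b k) ≤ g n ∧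
      isoCode iso (i, n) := by
    intro n hn
    rw [hW, Set.Finite.mem_toFinset] at hn
    exact ⟨hn.2, hn.1⟩
  rcases Finset.eq_empty_or_nonempty W with he | hne
  · rw [he]; simp
  choose! ι hι using fun n hn => (hmem n hn).2
  obtain ⟨n₀, hn₀, hmax⟩ := Finset.exists_max_image W ι hne
  have h1 : (∑ k ∈ range (ι n₀ + 1), bcode b k) ≤ g x :=
    le_trans (hι n₀ hn₀).2.1 (hmono (hmem n₀ hn₀).1)
  refine le_trans ?_ h1
  rw [Finset.card_eq_sum_card_fiberwise (f := ι) (t := range (ι n₀ + 1))]
  · apply Finset.sum_le_sum
    intro i _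
    by_cases hd : ∃ a : α, (Encodable.decode i : Option α) = some a
    · obtain ⟨a, ha⟩ := hd
      have : bcode b i = b a := by unfold bcode; rw [ha]; rfl
      rw [this]
      apply hcount a
      intro n hn
      rw [Finset.mem_filter] at hn
      obtain ⟨a', ha', hiso⟩ := (hι n hn.1).2.2
      simp only [hn.2] at ha'
      rw [ha] at ha'
      have : a = a' := by simpa using ha'
      rw [this]; exact hiso
    · have : (W.filter fun n => ι n = i) = ∅ := by
        apply Finset.filter_eq_empty_iff.2
        intro n hn hin
        obtain ⟨a', ha', _⟩ := (hι n hn).2.2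
        simp only [hin] at ha'
        exact hd ⟨a', ha'⟩
      rw [this]; simp
  · intro n hn
    rw [Finset.mem_coe] at hn
    rw [Finset.coe_range, Set.mem_Iio]
    have := hmax n hn
    omega

theorem exc_late {b : α → ℕ} (hb : Computable b) {iso : α → ℕ → Prop} {g : ℕ → ℕ}
    (hg : Computable g) (hmono : Monotone g) (hunb : ∀ k, ∃ n, k ≤ g n) :
    ∃ N : α → ℕ, Computable N ∧ ∀ a n, N a ≤ n → iso a n → n ∈ exc b iso g := by
  classical
  have hS : Computable fun a : α => ∑ k ∈ range (Encodable.encode a + 1), bcode b k :=
    comp_sum ((bcode_comp hb).comp Computable.snd).to₂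
      (Computable.succ.comp Computable.encode)
  let P : α → ℕ → Prop := fun a n =>
    Encodable.encode a ≤ n ∧ (∑ k ∈ range (Encodable.encode a + 1), bcode b k) ≤ g n
  have hP : ComputablePred fun x : α × ℕ => P x.1 x.2 := by
    apply cp_and
    · exact cp_le (Computable.encode.comp Computable.fst) Computable.snd
    · exact cp_le (hS.comp Computable.fst) (hg.comp Computable.snd)
  have hex : ∀ a, ∃ n, P a n := by
    intro a
    obtain ⟨n, hn⟩ := hunb (∑ k ∈ range (Encodable.encode a + 1), bcode b k)
    exact ⟨max n (Encodable.encode a), le_max_right _ _, le_trans hn (hmono (le_max_left _ _))⟩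
  refine ⟨fun a => Nat.find (hex a), Computable.find hP hex, ?_⟩
  intro a n hn hiso
  have h1 := Nat.find_spec (hex a)
  have hle : Encodable.encode a ≤ n := le_trans h1.1 hn
  refine ⟨Encodable.encode a, by omega, le_trans h1.2 (hmono hn), a, ?_, hiso⟩
  exact Encodable.encodek a

end diag

end Pool.Agent.H865R2.SK
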