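import Mathlib
import Pool.Agent.H865R2.SK.Diag
import Pool.Agent.H865R2.SK.Count

set_option autoImplicit false

open Finset

namespace Pool.Agent.H865R2.SK

/-- coded recurrences: coefficients and initial values, integers coded as differences -/
abbrev Code := List (ℕ × ℕ) × List (ℕ × ℕ)

def addp (x y : ℕ × ℕ) : ℕ × ℕ := (x.1 + y.1, x.2 + y.2)
def mulp (x y : ℕ × ℕ) : ℕ × ℕ := (x.1 * y.1 + x.2 * y.2, x.1 * y.2 + x.2 * y.1)
/-- value of a coded integer -/
def vp (x : ℕ × ℕ) : ℤ := (x.1 : ℤ) - (x.2 : ℤ)

theorem vp_addp (x y : ℕ × ℕ) : vp (addp x y) = vp x + vp y := by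
  simp only [vp, addp]; push_cast; ring

theorem vp_mulp (x y : ℕ × ℕ) : vp (mulp x y) = vp x * vp y := by
  simp only [vp, mulp]; push_cast; ring

theorem addp_prim : Primrec₂ addp := by
  unfold addp
  exact Primrec.pair
    (Primrec.nat_add.comp (Primrec.fst.comp Primrec.fst) (Primrec.fst.comp Primrec.snd))
    (Primrec.nat_add.comp (Primrec.snd.comp Primrec.fst) (Primrec.snd.comp Primrec.snd))

theorem mulp_prim : Primrec₂ mulp := by
  unfold mulp
  refine Primrec.pair
    (Primrec.nat_add.comp
      (Primrec.nat_mul.comp (Primrec.fst.comp Primrec.fst) (Primrec.fst.comp Primrec.snd))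
      (Primrec.nat_mul.comp (Primrec.snd.comp Primrec.fst) (Primrec.snd.comp Primrec.snd)))
    (Primrec.nat_add.comp
      (Primrec.nat_mul.comp (Primrec.fst.comp Primrec.fst) (Primrec.snd.comp Primrec.snd))
      (Primrec.nat_mul.comp (Primrec.snd.comp Primrec.fst) (Primrec.fst.comp Primrec.snd)))

/-- next term from the list of all previous terms -/
def nxt (p : Code) (l : List (ℕ × ℕ)) : ℕ × ℕ :=
  if l.length < p.2.length then p.2.getD l.length (0, 0)
  else (List.range p.1.length).foldl
    (fun acc i => addp acc (mulp (p.1.getD i (0, 0)) (l.getD (l.length - 1 - i) (0, 0)))) (0, 0)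

theorem nxt_prim : Primrec₂ nxt := by
  unfold nxt
  have hl : Primrec fun x : Code × List (ℕ × ℕ) => x.2.length := Primrec.list_length.comp Primrec.snd
  have hV : Primrec fun x : Code × List (ℕ × ℕ) => x.1.2 := Primrec.snd.comp Primrec.fst
  have hC : Primrec fun x : Code × List (ℕ × ℕ) => x.1.1 := Primrec.fst.comp Primrec.fst
  refine Primrec.ite ?_ ?_ ?_
  · exact Primrec.nat_lt.comp hl (Primrec.list_length.comp hV)
  · exact (Primrec.list_getD (0, 0)).comp hV hl
  · refine Primrec.list_foldl (h := fun (x : Code × List (ℕ × ℕ)) (y : (ℕ × ℕ) × ℕ) =>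
      addp y.1 (mulp (x.1.1.getD y.2 (0, 0)) (x.2.getD (x.2.length - 1 - y.2) (0, 0))))
      (Primrec.list_range.comp (Primrec.list_length.comp hC)) (Primrec.const (0, 0)) ?_
    refine addp_prim.comp (Primrec.fst.comp Primrec.snd) (mulp_prim.comp ?_ ?_)
    · exact (Primrec.list_getD (0, 0)).comp (hC.comp Primrec.fst) (Primrec.snd.comp Primrec.snd)
    · refine (Primrec.list_getD (0, 0)).comp (Primrec.snd.comp Primrec.fst) ?_
      exact Primrec.nat_sub.comp (Primrec.nat_sub.comp (hl.comp Primrec.fst) (Primrec.const 1))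
        (Primrec.snd.comp Primrec.snd)

/-- table of the first `n` terms -/
def tbl (p : Code) (n : ℕ) : List (ℕ × ℕ) := Nat.rec [] (fun _ l => l ++ [nxt p l]) n

theorem tbl_prim : Primrec₂ tbl := by
  unfold tbl
  refine Primrec.nat_rec' (f := fun x : Code × ℕ => x.2) (g := fun _ => [])
    (h := fun x y => y.2 ++ [nxt x.1 y.2]) Primrec.snd (Primrec.const []) ?_
  exact Primrec.list_concat.comp (Primrec.snd.comp Primrec.snd)
    (nxt_prim.comp (Primrec.fst.comp Primrec.fst) (Primrec.snd.comp Primrec.snd))

theorem tbl_succ (p : Code) (n : ℕ) : tbl p (n + 1) = tbl p n ++ [nxt p (tbl p n)] := rfl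

theorem tbl_len (p : Code) (n : ℕ) : (tbl p n).length = n := by
  induction n with
  | zero => rfl
  | succ n ih => rw [tbl_succ]; simp [ih]

/-- `n`-th term, coded -/
def U (p : Code) (n : ℕ) : ℕ × ℕ := nxt p (tbl p n)

theorem U_prim : Primrec₂ U := by
  unfold U
  exact nxt_prim.comp Primrec.fst tbl_prim

theorem tbl_getD (p : Code) (n k : ℕ) (hk : k < n) : (tbl p n).getD k (0, 0) = U p k := by
  induction n with
  | zero => omega
  | succ n ih =>
    rw [tbl_succ]
    rcases Nat.lt_or_ge k n with h | h
    · rw [List.getD_append _ _ _ _ (by rw [tbl_len]; exact h)]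
      exact ih h
    · have : k = n := by omega
      subst this
      rw [List.getD_append_right _ _ _ _ (by rw [tbl_len])]
      simp [tbl_len, U]

/-- `n`-th term -/
def sq (p : Code) (n : ℕ) : ℤ := vp (U p n)

theorem foldl_addp (L : List ℕ) (f : ℕ → ℕ × ℕ) (a : ℕ × ℕ) :
    vp (L.foldl (fun acc i => addp acc (f i)) a) = vp a + (L.map fun i => vp (f i)).sum := by
  induction L generalizing a with
  | nil => simp
  | cons x L ih => rw [List.foldl_cons, ih, vp_addp]; simp; ring

theorem sq_init (p : Code) (i : ℕ) (hi : i < p.2.length) :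
    sq p i = vp (p.2.getD i (0, 0)) := by
  unfold sq U nxt
  rw [tbl_len, if_pos hi]

theorem sq_rec (p : Code) (h : p.1.length = p.2.length) (n : ℕ) :
    sq p (n + p.1.length) = ∑ i ∈ range p.1.length,
      vp (p.1.getD i (0, 0)) * sq p (n + p.1.length - 1 - i) := by
  conv_lhs => unfold sq U nxt
  rw [tbl_len, if_neg (by omega), foldl_addp, Finset.sum_range, ← List.sum_ofFn]
  have h0 : vp (0, 0) = 0 := by simp [vp]
  rw [h0, zero_add]
  congr 1
  apply List.ext_getElem
  · simp
  · intro k hk1 hk2
    simp only [List.length_map, List.length_range] at hk1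
    simp only [List.getElem_map, List.getElem_range, List.getElem_ofFn]
    rw [vp_mulp, tbl_getD _ _ _ (by omega)]
    rfl

/-- validity of a code -/
def Valid (p : Code) : Prop :=
  p.1.length = p.2.length ∧ ∃ q ∈ p.1.getLast?, (q.1 : ℤ) ≠ (q.2 : ℤ)

theorem valid_pos {p : Code} (h : Valid p) : 1 ≤ p.1.length := by
  obtain ⟨_, q, hq, _⟩ := h
  rcases List.eq_nil_or_concat p.1 with h0 | ⟨l, a, ha⟩
  · rw [h0] at hq; simp at hq
  · rw [ha]; simp

/-- coefficient function -/
def cf (p : Code) (i : ℕ) : ℤ := vp (p.1.getD i (0, 0))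

theorem valid_last {p : Code} (h : Valid p) : cf p (p.1.length - 1) ≠ 0 := by
  have hpos := valid_pos h
  obtain ⟨_, q, hq, hne⟩ := h
  have h1 : p.1.getD (p.1.length - 1) (0, 0) = q := by
    rw [Option.mem_def, List.getLast?_eq_getElem?] at hq
    rw [List.getD_eq_getElem?_getD, hq]; rfl
  unfold cf vp
  rw [h1]
  exact sub_ne_zero.2 hne

theorem sq_isRec {p : Code} (h : p.1.length = p.2.length) : IsRec p.1.length (cf p) (sq p) :=
  fun n => sq_rec p h n

/-- absolute value of the last coefficient -/
def la (p : Code) : ℕ :=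
  ((p.1.getD (p.1.length - 1) (0, 0)).1 - (p.1.getD (p.1.length - 1) (0, 0)).2) +
    ((p.1.getD (p.1.length - 1) (0, 0)).2 - (p.1.getD (p.1.length - 1) (0, 0)).1)

theorem la_eq (p : Code) : la p = (cf p (p.1.length - 1)).natAbs := by
  unfold la cf vp
  omega

theorem la_prim : Primrec la := by
  unfold la
  have h1 : Primrec fun p : Code => p.1.getD (p.1.length - 1) (0, 0) :=
    (Primrec.list_getD (0, 0)).comp Primrec.fst
      (Primrec.nat_sub.comp (Primrec.list_length.comp Primrec.fst) (Primrec.const 1))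
  exact Primrec.nat_add.comp
    (Primrec.nat_sub.comp (Primrec.fst.comp h1) (Primrec.snd.comp h1))
    (Primrec.nat_sub.comp (Primrec.snd.comp h1) (Primrec.fst.comp h1))

theorem pow_prim : Primrec₂ ((· ^ ·) : ℕ → ℕ → ℕ) :=
  Primrec₂.unpaired'.1 Nat.Primrec.pow

theorem fact_prim : Primrec Nat.factorial := by
  have h : Primrec (fun n : ℕ => (Nat.rec 1 (fun k acc => (k + 1) * acc) n : ℕ)) := by
    refine Primrec.nat_rec' (f := fun n : ℕ => n) (g := fun _ => 1)
      (h := fun _ y => (y.1 + 1) * y.2) Primrec.id (Primrec.const 1) ?_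
    exact Primrec.nat_mul.comp
      (Primrec.succ.comp (Primrec.fst.comp Primrec.snd)) (Primrec.snd.comp Primrec.snd)
  refine h.of_eq ?_
  intro n
  induction n with
  | zero => rfl
  | succ n ih => rw [Nat.factorial_succ, ← ih]

/-- the modulus attached to a code -/
def mo (p : Code) : ℕ := modl p.1.length (la p)

theorem mo_prim : Primrec mo := by
  unfold mo modl
  refine fact_prim.comp (pow_prim.comp ?_ (Primrec.list_length.comp Primrec.fst))
  exact Primrec.succ.comp (Primrec.nat_mul.comp (Primrec.const 2) la_prim)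

theorem mo_pos (p : Code) : 0 < mo p := modl_pos _ _

/-- vanishing of the `n`-th term -/
theorem zero_iff (p : Code) (n : ℕ) : sq p n = 0 ↔ (U p n).1 = (U p n).2 := by
  unfold sq vp
  omega

theorem zero_comp {β : Type*} [Primcodable β] {f : β → Code} {g : β → ℕ} (hf : Computable f)
    (hg : Computable g) : ComputablePred fun x => sq (f x) (g x) = 0 := by
  have h : ComputablePred fun x : ℕ × ℕ => x.1 = x.2 :=
    PrimrecPred.computablePred (Primrec.eq (α := ℕ))
  have hU : Computable fun x => U (f x) (g x) := U_prim.to_comp.comp hf hg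
  exact (cp_comp h ((Computable.fst.comp hU).pair (Computable.snd.comp hU))).of_eq
    fun x => (zero_iff _ _).symm

theorem iso_comp : ComputablePred fun x : Code × ℕ => Iso (sq x.1) (mo x.1) x.2 := by
  unfold Iso FullC
  apply cp_and
  · exact zero_comp Computable.fst Computable.snd
  · have hR : ComputablePred fun y : (Code × ℕ) × ℕ =>
        sq y.1.1 (y.1.2 % mo y.1.1 + y.2 * mo y.1.1) = 0 := by
      apply zero_comp (Computable.fst.comp Computable.fst)
      have hm : Computable fun y : (Code × ℕ) × ℕ => mo y.1.1 :=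
        mo_prim.to_comp.comp (Computable.fst.comp Computable.fst)
      exact (Primrec.nat_add.to_comp).comp
        ((Primrec.nat_mod.to_comp).comp (Computable.snd.comp Computable.fst) hm)
        ((Primrec.nat_mul.to_comp).comp Computable.snd hm)
    have h := cp_ball hR
    exact (cp_comp h (Computable.id.pair (mo_prim.to_comp.comp Computable.fst))).not

/-- bound for the number of isolated zeros -/
def bd (p : Code) : ℕ :=
  2 * (∑ k ∈ range (mo p * mo p), ((U p k).1 + (U p k).2)) * mo p

theorem bd_comp : Computable bd := by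
  unfold bd
  refine (Primrec.nat_mul.to_comp).comp
    ((Primrec.nat_mul.to_comp).comp (Computable.const 2) ?_) mo_prim.to_comp
  refine comp_sum ?_ ((Primrec.nat_mul.to_comp).comp mo_prim.to_comp mo_prim.to_comp)
  have hU : Computable₂ U := U_prim.to_comp
  exact ((Primrec.nat_add.to_comp).comp (Computable.fst.comp hU) (Computable.snd.comp hU))

theorem bd_spec {p : Code} (h : Valid p) (W : Finset ℕ) (hW : ∀ n ∈ W, Iso (sq p) (mo p) n) :
    W.card ≤ bd p := by
  have hmo : mo p = modl p.1.length (cf p (p.1.length - 1)).natAbs := by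
    unfold mo; rw [la_eq]
  rw [hmo] at hW
  have h1 := count_iso (valid_pos h) (valid_last h) (sq_isRec h.1) W hW
  refine le_trans h1 ?_
  unfold bd
  rw [hmo]
  gcongr with k hk
  unfold sq vp
  omega

end Pool.Agent.H865R2.SK
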