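import Mathlib
import Pool.Agent.H865R2.SK.Comp

set_option autoImplicit false

open Finset Polynomial

namespace Pool.Agent.H865R2.SK

/-- the shift on integer sequences -/
def E : Module.End ℤ (ℕ → ℤ) where
  toFun u := fun n => u (n + 1)
  map_add' _ _ := rfl
  map_smul' _ _ := rfl

theorem E_pow (k : ℕ) (u : ℕ → ℤ) (n : ℕ) : (E ^ k) u n = u (n + k) := by
  induction k generalizing n with
  | zero => rfl
  | succ k ih =>
    rw [pow_succ', Module.End.mul_apply]
    show ((E ^ k) u) (n + 1) = _
    rw [ih]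
    congr 1; omega

theorem aeval_apply (P : ℤ[X]) (u : ℕ → ℤ) (n : ℕ) :
    (aeval E P) u n = ∑ k ∈ range (P.natDegree + 1), P.coeff k * u (n + k) := by
  rw [aeval_eq_sum_range, LinearMap.sum_apply, Finset.sum_apply]
  apply Finset.sum_congr rfl
  intro k _
  rw [LinearMap.smul_apply, Pi.smul_apply, smul_eq_mul, E_pow]

theorem ann_zero {P : ℤ[X]} (hP : P.Monic) {w : ℕ → ℤ} (hw : aeval E P w = 0)
    (h0 : ∀ n < P.natDegree, w n = 0) (n : ℕ) : w n = 0 := by
  induction n using Nat.strong_induction_on with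
  | _ n ih =>
    rcases Nat.lt_or_ge n P.natDegree with h | h
    · exact h0 n h
    · have h1 := congrFun hw (n - P.natDegree)
      rw [aeval_apply, Finset.sum_range_succ, Pi.zero_apply] at h1
      have h2 : ∑ k ∈ range P.natDegree, P.coeff k * w (n - P.natDegree + k) = 0 := by
        apply Finset.sum_eq_zero
        intro k hk
        rw [Finset.mem_range] at hk
        rw [ih _ (by omega), mul_zero]
      rw [h2, zero_add, hP.coeff_natDegree, one_mul] at h1
      rwa [Nat.sub_add_cancel h] at h1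

/-- `u` satisfies from index `s` on the recurrence with coefficients `c`. -/
def RecFrom (s d : ℕ) (c : ℕ → ℤ) (u : ℕ → ℤ) : Prop :=
  ∀ n, u (n + s + d) = ∑ i ∈ range d, c i * u (n + s + d - 1 - i)

theorem exists_recFrom {P : ℤ[X]} (hP : P.Monic) {u : ℕ → ℤ} (hu : aeval E P u = 0) :
    ∃ (s d : ℕ) (c : ℕ → ℤ), 1 ≤ d ∧ c (d - 1) ≠ 0 ∧ RecFrom s d c u := by
  obtain ⟨ψ, hψ, hdvd⟩ := exists_eq_pow_rootMultiplicity_mul_and_not_dvd P hP.ne_zero 0
  rw [C_0, sub_zero] at hψ hdvd
  set s := P.rootMultiplicity 0 with hs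
  have hψm : ψ.Monic := by
    have h1 : (X ^ s : ℤ[X]).Monic := monic_X_pow s
    rw [hψ] at hP
    exact h1.of_mul_monic_left hP
  have hψ0 : ψ.coeff 0 ≠ 0 := by
    intro h
    exact hdvd (X_dvd_iff.2 h)
  -- ψ annihilates the shifted sequence
  have h1 : ∀ n, ∑ k ∈ range (ψ.natDegree + 1), ψ.coeff k * u (n + s + k) = 0 := by
    intro n
    have h2 : aeval E P u = aeval E ψ ((E ^ s) u) := by
      rw [hψ, mul_comm, map_mul, Module.End.mul_apply, map_pow, aeval_X]
    have h3 := congrFun (h2.symm.trans hu) n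
    rw [aeval_apply, Pi.zero_apply] at h3
    rw [← h3]
    apply Finset.sum_congr rfl
    intro k _
    rw [E_pow]
    congr 2; omega
  rcases Nat.eq_zero_or_pos ψ.natDegree with hd | hd
  · -- nilpotent case
    refine ⟨s, 1, fun _ => 1, le_rfl, one_ne_zero, ?_⟩
    have h4 : ∀ n, u (n + s) = 0 := by
      intro n
      have := h1 n
      rw [hd] at this
      have hone : ψ = 1 := hψm.natDegree_eq_zero.1 hd
      rw [hone] at this
      simpa using this
    intro n
    rw [Finset.sum_range_one]
    have e1 : n + s + 1 = (n + 1) + s := by omega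
    have e2 : n + s + 1 - 1 - 0 = n + s := by omega
    rw [e2, e1, h4, h4, mul_zero]
  · refine ⟨s, ψ.natDegree, fun i => - ψ.coeff (ψ.natDegree - 1 - i), hd, ?_, ?_⟩
    · simp only [Nat.sub_self, neg_ne_zero]
      exact hψ0
    · intro n
      have h5 := h1 n
      rw [Finset.sum_range_succ, hψm.coeff_natDegree, one_mul] at h5
      have h6 : ∑ i ∈ range ψ.natDegree,
          -ψ.coeff (ψ.natDegree - 1 - i) * u (n + s + ψ.natDegree - 1 - i) =
          - ∑ k ∈ range ψ.natDegree, ψ.coeff k * u (n + s + k) := by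
        rw [← Finset.sum_range_reflect (fun k => ψ.coeff k * u (n + s + k)),
          ← Finset.sum_neg_distrib]
        apply Finset.sum_congr rfl
        intro i hi
        rw [Finset.mem_range] at hi
        have e1 : n + s + ψ.natDegree - 1 - i = n + s + (ψ.natDegree - 1 - i) := by omega
        rw [e1]; ring
      rw [h6]
      linarith

theorem recFrom_of_check {P : ℤ[X]} (hP : P.Monic) {u : ℕ → ℤ} (hu : aeval E P u = 0)
    {D : ℕ} (hD : P.natDegree ≤ D) {s d : ℕ} {c : ℕ → ℤ}
    (h : ∀ n < D, u (n + s + d) = ∑ i ∈ range d, c i * u (n + s + d - 1 - i)) :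
    RecFrom s d c u := by
  set R : ℤ[X] := X ^ (s + d) - ∑ i ∈ range d, C (c i) * X ^ (s + d - 1 - i) with hR
  have hRu : ∀ n, (aeval E R) u n =
      u (n + s + d) - ∑ i ∈ range d, c i * u (n + s + d - 1 - i) := by
    intro n
    rw [hR, map_sub, map_pow, aeval_X, map_sum, LinearMap.sub_apply, Pi.sub_apply, E_pow,
      LinearMap.sum_apply, Finset.sum_apply]
    rw [← add_assoc n s d]
    congr 1
    apply Finset.sum_congr rfl
    intro i hi
    rw [Finset.mem_range] at hi
    rw [map_mul, aeval_C, map_pow, aeval_X, Module.End.mul_apply]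
    simp only [algebraMap_int_eq, eq_intCast]
    rw [Module.End.intCast_apply, Pi.smul_apply, smul_eq_mul, E_pow]
    congr 2; omega
  have hw : aeval E P ((aeval E R) u) = 0 := by
    rw [← Module.End.mul_apply, ← map_mul, mul_comm, map_mul, Module.End.mul_apply, hu, map_zero]
  intro n
  have h1 := ann_zero hP hw (fun n hn => by rw [hRu, h n (by omega), sub_self]) n
  rw [hRu] at h1
  exact sub_eq_zero.1 h1

end Pool.Agent.H865R2.SK
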