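import Mathlib
import Pool.Agent.H865R2.SK.Ann

set_option autoImplicit false

open Finset Polynomial

namespace Pool.Agent.H865R2.SK

/-- a coded D0L system: initial word and images of the letters -/
abbrev Sys := List ℕ × List (List ℕ)

def stp (p : Sys) (w : List ℕ) : List ℕ := w.flatMap (fun a : ℕ => p.2.getD a [])

/-- growth sequence -/
def G (p : Sys) (n : ℕ) : ℕ := ((stp p)^[n] p.1).length

theorem stp_prim : Primrec₂ stp := by
  unfold stp
  refine Primrec.list_flatMap Primrec.snd ?_
  exact (Primrec.list_getD ([] : List ℕ)).comp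
    (Primrec.snd.comp (Primrec.fst.comp Primrec.fst)) Primrec.snd

theorem G_prim : Primrec₂ G := by
  unfold G
  refine Primrec.list_length.comp ?_
  exact Primrec.nat_iterate (h := fun (x : Sys × ℕ) w => stp x.1 w) Primrec.snd
    (Primrec.fst.comp Primrec.fst) (stp_prim.comp (Primrec.fst.comp Primrec.fst) Primrec.snd)

/-- bound for the letters -/
def lb (p : Sys) : ℕ := p.1.sum + p.2.flatten.sum + 1

theorem mem_le_sum {l : List ℕ} {a : ℕ} (h : a ∈ l) : a ≤ l.sum := List.single_le_sum (by simp) _ h

theorem lb_init (p : Sys) : ∀ a ∈ p.1, a < lb p := by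
  intro a ha
  have := mem_le_sum ha
  unfold lb
  omega

theorem lb_image (p : Sys) (j : ℕ) : ∀ a ∈ p.2.getD j [], a < lb p := by
  intro a ha
  have h1 : a ∈ p.2.flatten := by
    rw [List.mem_flatten]
    rw [List.getD_eq_getElem?_getD] at ha
    cases h : p.2[j]? with
    | none => rw [h] at ha; simp at ha
    | some l =>
      rw [h] at ha
      exact ⟨l, List.mem_of_getElem? h, ha⟩
  have := mem_le_sum h1
  unfold lb
  omega

theorem lb_step (p : Sys) (w : List ℕ) : ∀ a ∈ stp p w, a < lb p := by
  intro a ha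
  unfold stp at ha
  rw [List.mem_flatMap] at ha
  obtain ⟨j, _, hj⟩ := ha
  exact lb_image p j a hj

/-- count vector -/
def cv (B : ℕ) (w : List ℕ) : Fin B → ℤ := fun i => (w.count i.1 : ℤ)

/-- incidence matrix -/
def IM (p : Sys) (B : ℕ) : Matrix (Fin B) (Fin B) ℤ := fun i j => ((p.2.getD j.1 []).count i.1 : ℤ)

theorem cv_stp (p : Sys) (B : ℕ) (w : List ℕ) (hw : ∀ a ∈ w, a < B) :
    cv B (stp p w) = (IM p B).mulVecLin (cv B w) := by
  induction w with
  | nil =>
    funext i
    simp [cv, stp, Matrix.mulVec, dotProduct]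
  | cons a w ih =>
    have ha : a < B := hw a (by simp)
    have ih' := ih (fun b hb => hw b (by simp [hb]))
    have h1 : cv B (a :: w) = Pi.single (⟨a, ha⟩ : Fin B) 1 + cv B w := by
      funext i
      simp only [cv, Pi.add_apply, List.count_cons, Pi.single_apply]
      by_cases hi : i = ⟨a, ha⟩
      · subst hi
        simp; ring
      · have : ¬ a = i.1 := fun h => hi (Fin.ext h.symm)
        simp [hi, this]
    have h2 : cv B (stp p (a :: w)) = cv B (p.2.getD a []) + cv B (stp p w) := by
      funext i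
      simp only [cv, stp, Pi.add_apply, List.flatMap_cons, List.count_append]
      push_cast; ring
    rw [h1, h2, map_add, ih']
    congr 1
    funext i
    simp [cv, IM, Matrix.mulVecLin_apply, Matrix.mulVec_single]

theorem length_eq (B : ℕ) (w : List ℕ) (hw : ∀ a ∈ w, a < B) :
    (w.length : ℤ) = ∑ i, cv B w i := by
  induction w with
  | nil => simp [cv]
  | cons a w ih =>
    have ha : a < B := hw a (by simp)
    have ih' := ih (fun b hb => hw b (by simp [hb]))
    have h1 : ∀ i : Fin B, cv B (a :: w) i = (if (⟨a, ha⟩ : Fin B) = i then 1 else 0) + cv B w i := by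
      intro i
      simp only [cv, List.count_cons]
      by_cases hi : (⟨a, ha⟩ : Fin B) = i
      · subst hi
        simp; ring
      · have : ¬ a = i.1 := fun h => hi (Fin.ext h)
        simp [hi, this]
    rw [Finset.sum_congr rfl (fun i _ => h1 i), Finset.sum_add_distrib, ← ih']
    simp; ring

theorem G_ann (p : Sys) : ∃ P : ℤ[X], P.Monic ∧ P.natDegree = lb p ∧
    aeval E P (fun n => (G p n : ℤ)) = 0 := by
  set B := lb p with hB
  set A : (Fin B → ℤ) →ₗ[ℤ] (Fin B → ℤ) := (IM p B).mulVecLin with hA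
  have hdeg : A.charpoly.natDegree = B := by
    rw [LinearMap.charpoly_natDegree]
    simp
  refine ⟨A.charpoly, A.charpoly_monic, hdeg, ?_⟩
  have hlet : ∀ n, ∀ a ∈ (stp p)^[n] p.1, a < B := by
    intro n
    cases n with
    | zero => exact lb_init p
    | succ n => rw [Function.iterate_succ_apply']; exact lb_step p _
  have hcv : ∀ k n, cv B ((stp p)^[n + k] p.1) = (A ^ k) (cv B ((stp p)^[n] p.1)) := by
    intro k n
    induction k with
    | zero => rfl
    | succ k ih =>
      rw [← add_assoc, Function.iterate_succ_apply', cv_stp p B _ (hlet _), ih, pow_succ',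
        Module.End.mul_apply]
  funext n
  rw [aeval_apply, Pi.zero_apply, hdeg]
  have hCH := A.aeval_self_charpoly
  rw [aeval_eq_sum_range, hdeg] at hCH
  have h1 : ∀ k, (G p (n + k) : ℤ) = ∑ i, (A ^ k) (cv B ((stp p)^[n] p.1)) i := by
    intro k
    rw [← hcv]
    exact length_eq B _ (hlet _)
  simp only [h1, Finset.mul_sum]
  rw [Finset.sum_comm]
  apply Finset.sum_eq_zero
  intro i _
  have h2 := congrFun (LinearMap.congr_fun hCH (cv B ((stp p)^[n] p.1))) i
  rw [LinearMap.sum_apply, Finset.sum_apply, LinearMap.zero_apply, Pi.zero_apply] at h2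
  rw [← h2]
  apply Finset.sum_congr rfl
  intro k _
  rw [LinearMap.smul_apply, Pi.smul_apply, smul_eq_mul]

/-- difference of two growth sequences -/
def dif (p : Sys × Sys) (n : ℕ) : ℤ := (G p.1 n : ℤ) - (G p.2 n : ℤ)

theorem dif_ann (p : Sys × Sys) : ∃ P : ℤ[X], P.Monic ∧ P.natDegree ≤ lb p.1 + lb p.2 ∧
    aeval E P (dif p) = 0 := by
  obtain ⟨P, hP, hPd, hPu⟩ := G_ann p.1
  obtain ⟨Q, hQ, hQd, hQu⟩ := G_ann p.2
  refine ⟨P * Q, hP.mul hQ, ?_, ?_⟩
  · rw [hP.natDegree_mul hQ, hPd, hQd]
  · have h : dif p = (fun n => (G p.1 n : ℤ)) - (fun n => (G p.2 n : ℤ)) := rfl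
    rw [h, map_sub]
    have h1 : aeval E (P * Q) (fun n => (G p.1 n : ℤ)) = 0 := by
      rw [mul_comm, map_mul, Module.End.mul_apply, hPu, map_zero]
    have h2 : aeval E (P * Q) (fun n => (G p.2 n : ℤ)) = 0 := by
      rw [map_mul, Module.End.mul_apply, hQu, map_zero]
    rw [h1, h2, sub_zero]

theorem lb_prim : Primrec lb := by
  unfold lb
  have hsum : Primrec (List.sum : List ℕ → ℕ) := by
    have h := Primrec.list_foldr (f := fun l : List ℕ => l) (g := fun _ => 0)
      (h := fun _ (y : ℕ × ℕ) => y.1 + y.2) Primrec.id (Primrec.const 0)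
      (Primrec.nat_add.comp (Primrec.fst.comp Primrec.snd) (Primrec.snd.comp Primrec.snd))
    exact h.of_eq fun l => by induction l with
      | nil => rfl
      | cons a l ih => simp only [List.foldr_cons, List.sum_cons] at *; rw [ih]
  exact Primrec.succ.comp (Primrec.nat_add.comp (hsum.comp Primrec.fst)
    (hsum.comp (Primrec.list_flatten.comp Primrec.snd)))

end Pool.Agent.H865R2.SK
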