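import Mathlib
import Pool.Agent.H865R2.SK.D0L

set_option autoImplicit false

open Finset

namespace Pool.Agent.H865R2.SK

/-- the first `L` terms of the class of `r` modulo `m` vanish -/
def FullL (u : ℕ → ℤ) (m L r : ℕ) : Prop := ∀ j < L, u (r + j * m) = 0

def IsoL (u : ℕ → ℤ) (m L n : ℕ) : Prop := u n = 0 ∧ ¬ FullL u m L (n % m)

theorem count_isoL {d : ℕ} {c : ℕ → ℤ} (hd : 1 ≤ d) (hc : c (d - 1) ≠ 0) {u : ℕ → ℤ}
    (hu : IsRec d c u) {m : ℕ} (hm : modl d (c (d - 1)).natAbs ∣ m) (hm0 : 0 < m) (L : ℕ)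
    (W : Finset ℕ) (hW : ∀ n ∈ W, IsoL u m L n) :
    W.card ≤ 2 * (∑ k ∈ range (L * m), (u k).natAbs) * m := by
  classical
  set a := (c (d - 1)).natAbs with ha
  have ha1 : 1 ≤ a := Int.natAbs_pos.2 hc
  obtain ⟨q, hq, h3, hqP, hqa⟩ := exists_q a ha1
  have hqc : ¬ (q : ℤ) ∣ c (d - 1) := by
    rw [← Int.natCast_dvd_natCast, ] at hqa
    intro h
    exact hqa (by rw [ha]; exact Int.dvd_natAbs.2 h)
  have hqm : (q ^ d).factorial ∣ m := by
    refine dvd_trans ?_ hm
    rw [modl]
    apply Nat.factorial_dvd_factorial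
    exact Nat.pow_le_pow_left (Nat.le_of_dvd (by omega) hqP) d
  have hmaps : ∀ n ∈ W, n % m ∈ range m := fun n _ => Finset.mem_range.2 (Nat.mod_lt _ hm0)
  have key := Finset.card_le_mul_card_image_of_maps_to (f := fun n => n % m) hmaps
    (2 * ∑ k ∈ range (L * m), (u k).natAbs) ?_
  · rw [Finset.card_range] at key
    exact key
  intro r hr
  rw [Finset.mem_range] at hr
  rcases Finset.eq_empty_or_nonempty (W.filter fun n => n % m = r) with he | hne
  · rw [he]; simp
  obtain ⟨n₁, hn₁⟩ := hne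
  rw [Finset.mem_filter] at hn₁
  have hnf := (hW n₁ hn₁.1).2
  rw [hn₁.2] at hnf
  unfold FullL at hnf
  push Not at hnf
  obtain ⟨j₀, hj₀, hj₀'⟩ := hnf
  set Z : Finset ℕ := (W.filter fun n => n % m = r).image (fun n => n / m) with hZ
  have hcard : Z.card = (W.filter fun n => n % m = r).card := by
    rw [hZ]
    apply Finset.card_image_of_injOn
    intro x hx y hy hxy
    have hx' := (Finset.mem_filter.1 (Finset.mem_coe.1 hx)).2
    have hy' := (Finset.mem_filter.1 (Finset.mem_coe.1 hy)).2
    simp only at hxy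
    rw [← Nat.div_add_mod x m, ← Nat.div_add_mod y m, hxy, hx', hy']
  have hZ0 : ∀ j ∈ Z, u (r + j * m) = 0 := by
    intro j hj
    rw [hZ, Finset.mem_image] at hj
    obtain ⟨n, hn, rfl⟩ := hj
    rw [Finset.mem_filter] at hn
    have h1 := (hW n hn.1).1
    have h2 : r + n / m * m = n := by
      rw [← hn.2, mul_comm]; exact Nat.mod_add_div n m
    rw [h2]; exact h1
  have hdvd := class_dvd hd hq h3 hqc hqm hu r Z hZ0 j₀
  rw [← hcard]
  have h5 : q ^ ((Z.card + 1) / 2) ≤ (u (r + j₀ * m)).natAbs := by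
    apply Nat.le_of_dvd (Int.natAbs_pos.2 hj₀')
    rw [← Int.natCast_dvd]
    exact_mod_cast hdvd
  have h6 : (Z.card + 1) / 2 < q ^ ((Z.card + 1) / 2) := Nat.lt_pow_self (by omega)
  have h7 : (u (r + j₀ * m)).natAbs ≤ ∑ k ∈ range (L * m), (u k).natAbs := by
    apply Finset.single_le_sum (f := fun k => (u k).natAbs) (fun i _ => Nat.zero_le _)
    rw [Finset.mem_range]
    calc r + j₀ * m < m + j₀ * m := by omega
      _ = (j₀ + 1) * m := by ring
      _ ≤ L * m := Nat.mul_le_mul_right _ (by omega)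
  omega

/-- search space: threshold and coefficient list -/
abbrev SC := ℕ × List (ℕ × ℕ)

def ofN (k : ℕ) : SC := Denumerable.ofNat SC k

theorem ofN_comp : Computable ofN := Computable.ofNat SC

/-- coefficient of a coded list -/
def cfl (C : List (ℕ × ℕ)) (i : ℕ) : ℤ := vp (C.getD i (0, 0))

/-- the two sides of the recurrence, coded -/
def rhs (p : Sys × Sys) (x : SC) (n : ℕ) : ℕ × ℕ :=
  (List.range x.2.length).foldl
    (fun acc i => addp acc (mulp (x.2.getD i (0, 0))
      (G p.1 (n + x.1 + x.2.length - 1 - i), G p.2 (n + x.1 + x.2.length - 1 - i)))) (0, 0)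

theorem rhs_eq (p : Sys × Sys) (x : SC) (n : ℕ) :
    vp (rhs p x n) = ∑ i ∈ range x.2.length,
      cfl x.2 i * dif p (n + x.1 + x.2.length - 1 - i) := by
  unfold rhs
  rw [foldl_addp, Finset.sum_range, ← List.sum_ofFn]
  have h0 : vp (0, 0) = 0 := by simp [vp]
  rw [h0, zero_add]
  congr 1
  apply List.ext_getElem
  · simp
  · intro k hk1 hk2
    simp only [List.getElem_map, List.getElem_range, List.getElem_ofFn]
    rw [vp_mulp]
    rfl

theorem rhs_prim : Primrec fun y : ((Sys × Sys) × SC) × ℕ => rhs y.1.1 y.1.2 y.2 := by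
  unfold rhs
  have hC : Primrec fun y : ((Sys × Sys) × SC) × ℕ => y.1.2.2 :=
    Primrec.snd.comp (Primrec.snd.comp Primrec.fst)
  refine Primrec.list_foldl
    (h := fun (y : ((Sys × Sys) × SC) × ℕ) (z : (ℕ × ℕ) × ℕ) =>
      addp z.1 (mulp (y.1.2.2.getD z.2 (0, 0))
        (G y.1.1.1 (y.2 + y.1.2.1 + y.1.2.2.length - 1 - z.2),
          G y.1.1.2 (y.2 + y.1.2.1 + y.1.2.2.length - 1 - z.2))))
    (Primrec.list_range.comp (Primrec.list_length.comp hC)) (Primrec.const (0, 0)) ?_
  refine addp_prim.comp (Primrec.fst.comp Primrec.snd) (mulp_prim.comp ?_ ?_)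
  · exact (Primrec.list_getD (0, 0)).comp (hC.comp Primrec.fst) (Primrec.snd.comp Primrec.snd)
  · have hidx : Primrec fun w : (((Sys × Sys) × SC) × ℕ) × ((ℕ × ℕ) × ℕ) =>
        w.1.2 + w.1.1.2.1 + w.1.1.2.2.length - 1 - w.2.2 := by
      refine Primrec.nat_sub.comp (Primrec.nat_sub.comp (Primrec.nat_add.comp
        (Primrec.nat_add.comp (Primrec.snd.comp Primrec.fst)
          (Primrec.fst.comp (Primrec.snd.comp (Primrec.fst.comp Primrec.fst))))
        (Primrec.list_length.comp (hC.comp Primrec.fst))) (Primrec.const 1))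
        (Primrec.snd.comp Primrec.snd)
    have hp : Primrec fun w : (((Sys × Sys) × SC) × ℕ) × ((ℕ × ℕ) × ℕ) => w.1.1.1 :=
      Primrec.fst.comp (Primrec.fst.comp Primrec.fst)
    exact Primrec.pair (G_prim.comp (Primrec.fst.comp hp) hidx)
      (G_prim.comp (Primrec.snd.comp hp) hidx)

/-- acceptable pair -/
def Chk (p : Sys × Sys) (x : SC) : Prop :=
  (1 ≤ x.2.length ∧ cfl x.2 (x.2.length - 1) ≠ 0) ∧
    ∀ n < lb p.1 + lb p.2, dif p (n + x.1 + x.2.length) =
      ∑ i ∈ range x.2.length, cfl x.2 i * dif p (n + x.1 + x.2.length - 1 - i)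

theorem chk_comp : ComputablePred fun y : (Sys × Sys) × SC => Chk y.1 y.2 := by
  unfold Chk
  apply cp_and
  · have hC : Computable fun y : (Sys × Sys) × SC => y.2.2 := Computable.snd.comp Computable.snd
    have hl : Computable fun y : (Sys × Sys) × SC => y.2.2.length := Computable.list_length.comp hC
    apply cp_and (cp_le (Computable.const 1) hl)
    have hg : Computable fun y : (Sys × Sys) × SC => y.2.2.getD (y.2.2.length - 1) (0, 0) :=
      ((Primrec.list_getD ((0, 0) : ℕ × ℕ)).to_comp).comp hC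
        ((Primrec.nat_sub.to_comp).comp hl (Computable.const 1))
    have h : ComputablePred fun x : ℕ × ℕ => x.1 = x.2 :=
      PrimrecPred.computablePred (Primrec.eq (α := ℕ))
    refine ((cp_comp h hg).not).of_eq ?_
    intro y
    unfold cfl vp
    omega
  · have hR : ComputablePred fun z : ((Sys × Sys) × SC) × ℕ =>
        dif z.1.1 (z.2 + z.1.2.1 + z.1.2.2.length) =
          ∑ i ∈ range z.1.2.2.length, cfl z.1.2.2 i *
            dif z.1.1 (z.2 + z.1.2.1 + z.1.2.2.length - 1 - i) := by
      have hidx : Primrec fun z : ((Sys × Sys) × SC) × ℕ => z.2 + z.1.2.1 + z.1.2.2.length :=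
        Primrec.nat_add.comp
          (Primrec.nat_add.comp Primrec.snd (Primrec.fst.comp (Primrec.snd.comp Primrec.fst)))
          (Primrec.list_length.comp (Primrec.snd.comp (Primrec.snd.comp Primrec.fst)))
      have hp : Primrec fun z : ((Sys × Sys) × SC) × ℕ => z.1.1 :=
        Primrec.fst.comp Primrec.fst
      have h1 : Primrec fun z : ((Sys × Sys) × SC) × ℕ =>
          G z.1.1.1 (z.2 + z.1.2.1 + z.1.2.2.length) + (rhs z.1.1 z.1.2 z.2).2 :=
        Primrec.nat_add.comp (G_prim.comp (Primrec.fst.comp hp) hidx)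
          (Primrec.snd.comp rhs_prim)
      have h2 : Primrec fun z : ((Sys × Sys) × SC) × ℕ =>
          G z.1.1.2 (z.2 + z.1.2.1 + z.1.2.2.length) + (rhs z.1.1 z.1.2 z.2).1 :=
        Primrec.nat_add.comp (G_prim.comp (Primrec.snd.comp hp) hidx)
          (Primrec.fst.comp rhs_prim)
      have h : ComputablePred fun x : ℕ × ℕ => x.1 = x.2 :=
        PrimrecPred.computablePred (Primrec.eq (α := ℕ))
      refine (cp_comp h ((h1.to_comp).pair (h2.to_comp))).of_eq ?_
      intro z
      rw [← rhs_eq]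
      unfold vp dif
      simp only
      omega
    have h := cp_ball hR
    refine cp_comp h (Computable.id.pair ?_)
    exact (Primrec.nat_add.comp (lb_prim.comp (Primrec.fst.comp Primrec.fst))
      (lb_prim.comp (Primrec.snd.comp Primrec.fst))).to_comp

theorem chk_exists (p : Sys × Sys) : ∃ k, Chk p (ofN k) := by
  obtain ⟨P, hP, hPd, hPu⟩ := dif_ann p
  obtain ⟨s, d, c, hd, hc, hrec⟩ := exists_recFrom hP hPu
  set C : List (ℕ × ℕ) := (List.range d).map fun i => ((c i).toNat, (-(c i)).toNat) with hC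
  have hCl : C.length = d := by simp [hC]
  have hcf : ∀ i < d, cfl C i = c i := by
    intro i hi
    unfold cfl vp
    have : C.getD i (0, 0) = ((c i).toNat, (-(c i)).toNat) := by
      rw [List.getD_eq_getElem?_getD, hC, List.getElem?_map, List.getElem?_range hi]
      rfl
    rw [this]
    simp only
    omega
  refine ⟨Encodable.encode ((s, C) : SC), ?_⟩
  unfold ofN
  rw [Denumerable.ofNat_encode]
  refine ⟨⟨by simp only; omega, ?_⟩, ?_⟩
  · simp only [hCl]
    rw [hcf _ (by omega)]
    exact hc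
  · intro n _
    simp only [hCl]
    rw [hrec n]
    apply Finset.sum_congr rfl
    intro i hi
    rw [Finset.mem_range] at hi
    rw [hcf i hi]

noncomputable section

open Classical in
/-- the selected pair -/
def sel (p : Sys × Sys) : SC := ofN (Nat.find (chk_exists p))

theorem sel_comp : Computable sel := by
  classical
  unfold sel
  refine ofN_comp.comp ?_
  have h : ComputablePred fun x : (Sys × Sys) × ℕ => Chk x.1 (ofN x.2) :=
    cp_comp chk_comp (Computable.fst.pair (ofN_comp.comp Computable.snd))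
  have := Computable.find (P := fun (p : Sys × Sys) k => Chk p (ofN k)) h chk_exists
  convert this

theorem sel_spec (p : Sys × Sys) : Chk p (sel p) := by
  classical
  unfold sel
  exact Nat.find_spec (chk_exists p)

end

/-- the shifted difference satisfies the recurrence -/
theorem sel_rec (p : Sys × Sys) :
    IsRec (sel p).2.length (cfl (sel p).2) (fun n => dif p (n + (sel p).1)) := by
  obtain ⟨P, hP, hPd, hPu⟩ := dif_ann p
  have h := sel_spec p
  have h1 := recFrom_of_check hP hPu hPd h.2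
  have hl := h.1.1
  intro n
  have h2 := h1 n
  have e1 : n + (sel p).2.length + (sel p).1 = n + (sel p).1 + (sel p).2.length := by omega
  show dif p (n + (sel p).2.length + (sel p).1) = _
  rw [e1, h2]
  apply Finset.sum_congr rfl
  intro i hi
  rw [Finset.mem_range] at hi
  have e2 : n + (sel p).1 + (sel p).2.length - 1 - i = n + (sel p).2.length - 1 - i + (sel p).1 := by
    omega
  rw [e2]

end Pool.Agent.H865R2.SK
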